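import Pool.Agent.helper78.WB.SpecIIa

/-!
# Project wb (MP_bb5cc8_nt), Part IIa, row DY: a dyadic degree class
-/

set_option autoImplicit false

namespace Pool.Agent.WB

theorem DY : DY_stmt := by
  classical
  intro A B F hF hne
  set dg : V3 → ℕ := fun b => (nbr A F b).card with hdg
  set M : ℕ := Nat.log 2 A.card with hM
  have hdgA : ∀ b, dg b ≤ A.card := fun b => Finset.card_filter_le _ _
  have hpos : ∀ e ∈ F, 1 ≤ dg e.2 := by
    intro e he
    refine Finset.card_pos.mpr ⟨e.1, ?_⟩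
    exact Finset.mem_filter.mpr ⟨(hF e he).1, he⟩
  have hmaps : ∀ e ∈ F, Nat.log 2 (dg e.2) ∈ Finset.range (M + 1) := by
    intro e _
    exact Finset.mem_range.mpr (Nat.lt_succ_of_le (Nat.log_mono_right (hdgA e.2)))
  have hsum : F.card = ∑ k ∈ Finset.range (M + 1),
      (F.filter (fun e => Nat.log 2 (dg e.2) = k)).card :=
    Finset.card_eq_sum_card_fiberwise hmaps
  obtain ⟨k, _, hk⟩ : ∃ k ∈ Finset.range (M + 1), F.card ≤
      (M + 1) * (F.filter (fun e => Nat.log 2 (dg e.2) = k)).card := by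
    refine Finset.exists_le_of_sum_le ⟨0, Finset.mem_range.mpr (Nat.succ_pos M)⟩ ?_
    rw [← Finset.mul_sum, ← hsum, Finset.sum_const, Finset.card_range, smul_eq_mul]
  have hFpos : 0 < F.card := Finset.card_pos.mpr hne
  have hfib : 0 < (F.filter (fun e => Nat.log 2 (dg e.2) = k)).card := by
    rcases Nat.eq_zero_or_pos (F.filter (fun e => Nat.log 2 (dg e.2) = k)).card with h0 | h0
    · rw [h0, Nat.mul_zero] at hk; omega
    · exact h0
  obtain ⟨e, he⟩ := Finset.card_pos.mp hfib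
  obtain ⟨heF, hek⟩ := Finset.mem_filter.mp he
  refine ⟨2 ^ k, B.filter (fun b => 1 ≤ dg b ∧ Nat.log 2 (dg b) = k), Nat.one_le_two_pow, ?_,
    Finset.filter_subset _ _, ?_, ?_⟩
  · calc 2 ^ k = 2 ^ Nat.log 2 (dg e.2) := by rw [hek]
      _ ≤ dg e.2 := Nat.pow_log_le_self 2 (by have := hpos e heF; omega)
      _ ≤ A.card := hdgA _
  · intro b hb
    obtain ⟨_, hb1, hb2⟩ := Finset.mem_filter.mp hb
    constructor
    · show 2 ^ k ≤ dg b
      rw [← hb2]
      exact Nat.pow_log_le_self 2 (by omega)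
    · show dg b < 2 * 2 ^ k
      rw [← hb2, ← pow_succ']
      exact Nat.lt_pow_succ_log_self (by norm_num) (dg b)
  · refine le_trans hk (Nat.mul_le_mul_left _ (Finset.card_le_card ?_))
    intro e' he'
    obtain ⟨h1, h2⟩ := Finset.mem_filter.mp he'
    exact Finset.mem_filter.mpr ⟨h1, Finset.mem_filter.mpr ⟨(hF e' h1).2, hpos e' h1, h2⟩⟩

end Pool.Agent.WB
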