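import Pool.Agent.helper75.WB.SpecI

/-!
# Project wb (MP_bb5cc8_nt), Part I, row ITL: the number of flags over all charts
-/

set_option autoImplicit false

namespace Pool.Agent.WB

open Finset

open scoped Classical in
/-- the pairs of the flags over `n` -/
noncomputable def ITLfil15 (X0 Y : ℝ) (P : ℕ → Finset ℕ) (c : ℤ × ℤ) (n : ℕ) : Finset (ℕ × ℕ) :=
  ((P n) ×ˢ (P n)).filter (fun b => b.1 ≠ b.2 ∧ RelD X0 Y c b.1 b.2)

lemma ITL_card15 (X0 Y : ℝ) (E : Finset ℕ) (P : ℕ → Finset ℕ) (c : ℤ × ℤ) :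
    (TG X0 Y E P c).card = ∑ n ∈ E, (ITLfil15 X0 Y P c n).card := by
  classical
  have h : TG X0 Y E P c = E.biUnion (fun n => (ITLfil15 X0 Y P c n).image (fun b => (n, b))) := rfl
  rw [h, card_biUnion]
  · refine sum_congr rfl fun n _ => ?_
    exact card_image_of_injective _ (fun a b hab => (Prod.mk.inj hab).2)
  · intro n _ m _ hnm
    rw [Function.onFun, disjoint_left]
    intro g hg hg'
    obtain ⟨b, _, rfl⟩ := mem_image.mp hg
    obtain ⟨b', _, hb'⟩ := mem_image.mp hg'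
    exact hnm ((Prod.mk.inj hb').1).symm

theorem ITL : ITL_stmt := by
  classical
  intro M X0 Y Q D r E P hr hP hD
  have h1 : ∑ c ∈ Ch Q, (TG X0 Y E P c).card =
      ∑ n ∈ E, ∑ b ∈ (P n).offDiag, ((Ch Q).filter (fun c => RelD X0 Y c b.1 b.2)).card := by
    have e1 : ∀ c ∈ Ch Q, (TG X0 Y E P c).card = ∑ n ∈ E, ∑ b ∈ (P n).offDiag,
        (if RelD X0 Y c b.1 b.2 then 1 else 0) := by
      intro c _
      rw [ITL_card15]
      refine sum_congr rfl fun n _ => ?_
      rw [← card_filter]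
      refine congrArg Finset.card ?_
      ext b
      unfold ITLfil15
      rw [mem_filter, mem_filter, mem_product, mem_offDiag]
      tauto
    rw [sum_congr rfl e1, sum_comm]
    refine sum_congr rfl fun n _ => ?_
    rw [sum_comm]
    refine sum_congr rfl fun b _ => ?_
    rw [← card_filter]
  rw [h1]
  have h2 : ∀ n ∈ E, r ^ 2 * D ≤
      4 * ∑ b ∈ (P n).offDiag, ((Ch Q).filter (fun c => RelD X0 Y c b.1 b.2)).card := by
    intro n hn
    obtain ⟨hsub, hcard⟩ := hP n hn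
    have h3 : (P n).offDiag.card * D ≤
        2 * ∑ b ∈ (P n).offDiag, ((Ch Q).filter (fun c => RelD X0 Y c b.1 b.2)).card := by
      rw [mul_sum, ← smul_eq_mul, ← sum_const]
      refine sum_le_sum fun b hb => ?_
      obtain ⟨hb1, hb2, hb3⟩ := mem_offDiag.mp hb
      exact hD b.1 (hsub hb1) b.2 (hsub hb2) hb3
    have h4 : r ^ 2 ≤ 2 * (P n).offDiag.card := by
      rw [offDiag_card]
      clear h3
      generalize (P n).card = m at hcard ⊢
      have hm : 2 ≤ m := le_trans hr hcard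
      obtain ⟨k, rfl⟩ : ∃ k, m = k + 2 := ⟨m - 2, by omega⟩
      have h5 : (k + 2) * (k + 2) - (k + 2) = (k + 2) * (k + 1) := by
        rw [Nat.sub_eq_iff_eq_add (by nlinarith)]
        ring
      rw [h5]
      have h6 : r ^ 2 ≤ (k + 2) ^ 2 := Nat.pow_le_pow_left hcard 2
      nlinarith
    calc r ^ 2 * D ≤ 2 * (P n).offDiag.card * D := Nat.mul_le_mul_right _ h4
      _ = 2 * ((P n).offDiag.card * D) := by ring
      _ ≤ 2 * (2 * ∑ b ∈ (P n).offDiag,
          ((Ch Q).filter (fun c => RelD X0 Y c b.1 b.2)).card) := Nat.mul_le_mul_left _ h3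
      _ = _ := by ring
  calc E.card * r ^ 2 * D = ∑ _n ∈ E, r ^ 2 * D := by
        rw [sum_const, smul_eq_mul]; ring
    _ ≤ ∑ n ∈ E, 4 * ∑ b ∈ (P n).offDiag,
          ((Ch Q).filter (fun c => RelD X0 Y c b.1 b.2)).card := sum_le_sum h2
    _ = _ := by rw [mul_sum]

end Pool.Agent.WB
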