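import Pool.Agent.helper78.WB.SpecIII

/-!
# Project wb (MP_bb5cc8_nt), Part III, row LCO: local coordinates in `ℤ_[ℓ]`
-/

set_option autoImplicit false

namespace Pool.Agent.WB

open MvPolynomial

/-- value of a form at a multiple of a point -/
lemma LCO_eval_smul {R : Type} [CommRing R] (v : R) (z : Fin 3 → R) (n : ℕ)
    (P : MvPolynomial (Fin 3) R) (hP : P.IsHomogeneous n) :
    eval (fun i => v * z i) P = v ^ n * eval z P := by
  classical
  rw [eval_eq, eval_eq, Finset.mul_sum]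
  refine Finset.sum_congr rfl fun d hd => ?_
  have hdeg : d.degree = n := by
    have h := hP (mem_support_iff.mp hd)
    rw [Finsupp.weight_apply] at h
    rw [← h, Finsupp.degree_apply, Finsupp.sum]
    exact Finset.sum_congr rfl fun i _ => by simp
  have h1 : ∏ i ∈ d.support, (v * z i) ^ d i
      = v ^ n * ∏ i ∈ d.support, z i ^ d i := by
    rw [← hdeg, Finsupp.degree_apply, ← Finset.prod_pow_eq_pow_sum, ← Finset.prod_mul_distrib]
    exact Finset.prod_congr rfl fun i _ => by rw [mul_pow]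
  rw [h1]
  ring

/-- evaluation of the localisation -/
lemma LCO_eval_loc {R : Type} [CommRing R] (j : Fin 3) (ζ : Fin 3 → R) (a : Fin 2 → R)
    (P : MvPolynomial (Fin 3) R) :
    eval a (loc j ζ P) =
      eval (Fin.insertNth j (ζ j) (fun t : Fin 2 => a t + ζ (j.succAbove t)) : Fin 3 → R) P := by
  have key : ((aeval a : MvPolynomial (Fin 2) R →ₐ[R] R).comp (loc j ζ)) =
      (aeval (Fin.insertNth j (ζ j) (fun t : Fin 2 => a t + ζ (j.succAbove t)) : Fin 3 → R) :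
        MvPolynomial (Fin 3) R →ₐ[R] R) := by
    apply MvPolynomial.algHom_ext
    intro i
    rw [AlgHom.comp_apply, loc, aeval_X, aeval_X]
    refine Fin.succAboveCases j ?_ (fun t => ?_) i
    · rw [Fin.insertNth_apply_same, Fin.insertNth_apply_same, aeval_C]
      rfl
    · rw [Fin.insertNth_apply_succAbove, Fin.insertNth_apply_succAbove, map_add, aeval_X, aeval_C]
      rfl
  have h := DFunLike.congr_fun key P
  rw [AlgHom.comp_apply] at h
  rw [← coe_aeval_eq_eval, ← coe_aeval_eq_eval]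
  exact h

theorem LCO : LCO_stmt := by
  intro ℓ _ j ζ₁ ζ h₁ h₂ h
  set z : Fin 3 → ℤ_[ℓ] := fun i => ((ζ i : ℤ) : ℤ_[ℓ]) with hz
  set z₁ : Fin 3 → ℤ_[ℓ] := fun i => ((ζ₁ i : ℤ) : ℤ_[ℓ]) with hz₁
  have hunit : ∀ k : ℤ, ¬ (ℓ : ℤ) ∣ k → IsUnit ((k : ℤ) : ℤ_[ℓ]) := by
    intro k hk
    by_contra hc
    exact hk ((PadicInt.norm_int_lt_one_iff_dvd k).mp (PadicInt.not_isUnit_iff.mp hc))
  obtain ⟨U₁, hU₁⟩ := hunit _ h₁
  obtain ⟨U, hU⟩ := hunit _ h₂
  have hvz : ((U⁻¹ : ℤ_[ℓ]ˣ) : ℤ_[ℓ]) * z j = 1 := by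
    rw [hz]; simp only []; rw [← hU]; exact U.inv_mul
  set v : ℤ_[ℓ] := (U₁ : ℤ_[ℓ]) * ((U⁻¹ : ℤ_[ℓ]ˣ) : ℤ_[ℓ]) with hv
  set u : ℤ_[ℓ] := (U : ℤ_[ℓ]) * ((U₁⁻¹ : ℤ_[ℓ]ˣ) : ℤ_[ℓ]) with hu
  have huv : u * v = 1 := by
    rw [hu, hv]
    calc _ = ((U : ℤ_[ℓ]) * ((U⁻¹ : ℤ_[ℓ]ˣ) : ℤ_[ℓ])) *
        ((U₁ : ℤ_[ℓ]) * ((U₁⁻¹ : ℤ_[ℓ]ˣ) : ℤ_[ℓ])) := by ring
      _ = 1 := by rw [U.mul_inv, U₁.mul_inv, one_mul]
  have hvzj : v * z j = z₁ j := by
    rw [hv, mul_assoc, hvz, mul_one, hU₁]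
  refine ⟨u, fun t => v * z (j.succAbove t) - z₁ (j.succAbove t), ?_, ?_, ?_⟩
  · rw [hu]; exact (U.isUnit).mul (U₁⁻¹).isUnit
  · intro t
    have hd := h (j.succAbove t) j
    have hd' : (ℓ : ℤ_[ℓ]) ∣ z (j.succAbove t) * z₁ j - z j * z₁ (j.succAbove t) := by
      obtain ⟨c, hc⟩ := hd
      refine ⟨(c : ℤ_[ℓ]), ?_⟩
      rw [hz, hz₁]
      simp only []
      exact_mod_cast congrArg (fun x : ℤ => (x : ℤ_[ℓ])) hc
    have e : z j * (v * z (j.succAbove t) - z₁ (j.succAbove t)) =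
        z (j.succAbove t) * z₁ j - z j * z₁ (j.succAbove t) := by
      rw [← hvzj]; ring
    have hzju : IsUnit (z j) := by rw [hz]; simp only []; rw [← hU]; exact U.isUnit
    rw [← e] at hd'
    exact (hzju.dvd_mul_left).mp hd'
  · intro n Q hQ
    rw [LCO_eval_loc]
    have hpt : (Fin.insertNth j (z₁ j) (fun t : Fin 2 =>
        (v * z (j.succAbove t) - z₁ (j.succAbove t)) + z₁ (j.succAbove t)) : Fin 3 → ℤ_[ℓ])
        = fun i => v * z i := by
      funext i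
      refine Fin.succAboveCases j ?_ (fun t => ?_) i
      · rw [Fin.insertNth_apply_same, hvzj]
      · rw [Fin.insertNth_apply_succAbove]; ring
    have hhom : (map (Int.castRingHom ℤ_[ℓ]) Q).IsHomogeneous n := hQ.map _
    rw [hpt, LCO_eval_smul v z n _ hhom, ← mul_assoc, ← mul_pow, huv, one_pow, one_mul, eval_map]
    exact eval₂_comp (Int.castRingHom ℤ_[ℓ]) ζ Q

end Pool.Agent.WB
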